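import Pool.Agent.H174.GP.StE
import Pool.Agent.H174.GP.StA
import Pool.Agent.H174.GP.StP

open MeasureTheory ProbabilityTheory Finset

namespace Pool.Agent.H928.GP174

open Pool.Agent.H174.GP

/-- Second moment bound for the number of pairwise independent events. -/
theorem cheb_count {Ω : Type*} [MeasurableSpace Ω] (P : Measure Ω) [IsProbabilityMeasure P]
    (I : Finset ℕ) (F : ℕ → Set Ω) (hm : ∀ i ∈ I, MeasurableSet (F i))
    (hind : ∀ i ∈ I, ∀ j ∈ I, i ≠ j → P.real (F i ∩ F j) = P.real (F i) * P.real (F j))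
    (p : ℝ) (hp : 0 < p) (hpi : ∀ i ∈ I, p ≤ P.real (F i)) (hI : 0 < I.card) :
    P.real {ω | ∑ i ∈ I, (F i).indicator (fun _ => (1 : ℝ)) ω < p * I.card / 2} ≤ 4 / (p * I.card) := by
  set μ : ℝ := ∑ i ∈ I, P.real (F i) with hμ
  have hcard : (0 : ℝ) < I.card := by exact_mod_cast hI
  have hμ1 : p * I.card ≤ μ := by
    have h1 := Finset.card_nsmul_le_sum I (fun i => P.real (F i)) p hpi
    rw [nsmul_eq_mul, mul_comm] at h1
    exact h1
  have hpc : 0 < p * I.card := mul_pos hp hcard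
  have hμ0 : 0 < μ := lt_of_lt_of_le hpc hμ1
  set N : Ω → ℝ := fun ω => ∑ i ∈ I, (F i).indicator (fun _ => (1 : ℝ)) ω with hN
  -- integral of N
  have hint : ∀ i ∈ I, Integrable ((F i).indicator (fun _ => (1 : ℝ))) P := fun i hi =>
    (integrable_const (1 : ℝ)).indicator (hm i hi)
  have hNint : Integrable N P := integrable_finsetSum I hint
  have hEN : ∫ ω, N ω ∂P = μ := by
    rw [hN, integral_finsetSum I hint, hμ]
    refine Finset.sum_congr rfl fun i hi => ?_
    rw [integral_indicator (hm i hi)]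
    simp
  have hint2 : ∀ i ∈ I, ∀ j ∈ I, Integrable ((F i ∩ F j).indicator (fun _ => (1 : ℝ))) P :=
    fun i hi j hj => (integrable_const (1 : ℝ)).indicator ((hm i hi).inter (hm j hj))
  have hNsq : (fun ω => N ω ^ 2) = fun ω => ∑ i ∈ I, ∑ j ∈ I, (F i ∩ F j).indicator (fun _ => (1 : ℝ)) ω := by
    funext ω
    rw [hN]
    simp only
    rw [sq, Finset.sum_mul_sum]
    refine Finset.sum_congr rfl fun i _ => Finset.sum_congr rfl fun j _ => ?_
    by_cases hi : ω ∈ F i
    · by_cases hj : ω ∈ F j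
      · have hij : ω ∈ F i ∩ F j := ⟨hi, hj⟩
        rw [Set.indicator_of_mem hi, Set.indicator_of_mem hj, Set.indicator_of_mem hij]
        norm_num
      · have hij : ω ∉ F i ∩ F j := fun h => hj h.2
        rw [Set.indicator_of_notMem hj, Set.indicator_of_notMem hij, mul_zero]
    · have hij : ω ∉ F i ∩ F j := fun h => hi h.1
      rw [Set.indicator_of_notMem hi, Set.indicator_of_notMem hij, zero_mul]
  have hNsqint : Integrable (fun ω => N ω ^ 2) P := by
    rw [hNsq]
    exact integrable_finsetSum I fun i hi => integrable_finsetSum I fun j hj => hint2 i hi j hj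
  have hENsq : ∫ ω, N ω ^ 2 ∂P = ∑ i ∈ I, ∑ j ∈ I, P.real (F i ∩ F j) := by
    rw [hNsq, integral_finsetSum I (fun i hi => integrable_finsetSum I fun j hj => hint2 i hi j hj)]
    refine Finset.sum_congr rfl fun i hi => ?_
    rw [integral_finsetSum I (fun j hj => hint2 i hi j hj)]
    refine Finset.sum_congr rfl fun j hj => ?_
    rw [integral_indicator ((hm i hi).inter (hm j hj))]
    simp
  have hle : ∑ i ∈ I, ∑ j ∈ I, P.real (F i ∩ F j) ≤ μ ^ 2 + μ := by
    have h1 : ∀ i ∈ I, ∑ j ∈ I, P.real (F i ∩ F j) ≤ P.real (F i) * μ + P.real (F i) := by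
      intro i hi
      have h2 : ∑ j ∈ I, P.real (F i ∩ F j) ≤
          ∑ j ∈ I, (P.real (F i) * P.real (F j) + if i = j then P.real (F i) else 0) := by
        refine Finset.sum_le_sum fun j hj => ?_
        by_cases hij : i = j
        · subst hij
          rw [if_pos rfl, Set.inter_self]
          nlinarith [measureReal_nonneg (μ := P) (s := F i)]
        · rw [if_neg hij, hind i hi j hj hij, add_zero]
      rw [Finset.sum_add_distrib, ← Finset.mul_sum, Finset.sum_ite_eq I i, if_pos hi] at h2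
      exact h2
    calc ∑ i ∈ I, ∑ j ∈ I, P.real (F i ∩ F j) ≤ ∑ i ∈ I, (P.real (F i) * μ + P.real (F i)) :=
          Finset.sum_le_sum h1
      _ = μ ^ 2 + μ := by
          rw [Finset.sum_add_distrib, ← Finset.sum_mul, ← hμ]; ring
  have hvar : ∫ ω, (N ω - μ) ^ 2 ∂P ≤ μ := by
    have h1 : (fun ω => (N ω - μ) ^ 2) = fun ω => (N ω ^ 2 - 2 * μ * N ω) + μ ^ 2 := by
      funext ω; ring
    have hA : Integrable (fun ω => N ω ^ 2 - 2 * μ * N ω) P := hNsqint.sub (hNint.const_mul (2 * μ))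
    rw [h1, integral_add hA (integrable_const _),
      integral_sub hNsqint (hNint.const_mul (2 * μ)), integral_const_mul, hENsq, hEN]
    simp only [integral_const, probReal_univ, one_smul]
    nlinarith
  have hvint : Integrable (fun ω => (N ω - μ) ^ 2) P := by
    have h1 : (fun ω => (N ω - μ) ^ 2) = fun ω => (N ω ^ 2 - 2 * μ * N ω) + μ ^ 2 := by
      funext ω; ring
    rw [h1]
    exact (hNsqint.sub (hNint.const_mul _)).add (integrable_const _)
  have hmk := mul_meas_ge_le_integral_of_nonneg (μ := P) (f := fun ω => (N ω - μ) ^ 2)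
    (Filter.Eventually.of_forall fun ω => sq_nonneg _) hvint ((μ / 2) ^ 2)
  have hsub : {ω | N ω < p * I.card / 2} ⊆ {ω | (μ / 2) ^ 2 ≤ (N ω - μ) ^ 2} := by
    intro ω hω
    have h1 : N ω < p * I.card / 2 := hω
    have h2 : μ / 2 ≤ μ - N ω := by linarith
    have h3 : (μ / 2) ^ 2 ≤ (μ - N ω) ^ 2 := pow_le_pow_left₀ (by positivity) h2 2
    have h4 : (μ - N ω) ^ 2 = (N ω - μ) ^ 2 := by ring
    rw [Set.mem_ofPred_eq, ← h4]
    exact h3
  have hmono : P.real {ω | N ω < p * I.card / 2} ≤ P.real {ω | (μ / 2) ^ 2 ≤ (N ω - μ) ^ 2} :=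
    measureReal_mono hsub
  have h5 : (μ / 2) ^ 2 * P.real {ω | N ω < p * I.card / 2} ≤ μ := by
    refine le_trans (mul_le_mul_of_nonneg_left hmono (by positivity)) (le_trans hmk hvar)
  have h6 : P.real {ω | N ω < p * I.card / 2} ≤ 4 / μ := by
    rw [le_div_iff₀ hμ0]
    have h7 : (μ / 2) ^ 2 * P.real {ω | N ω < p * I.card / 2} =
      (P.real {ω | N ω < p * I.card / 2} * μ) * (μ / 4) := by ring
    rw [h7] at h5
    nlinarith
  refine le_trans h6 ?_
  exact div_le_div_of_nonneg_left (by norm_num) hpc hμ1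

theorem meas_Tq (a : ℝ) : Measurable (Tq a) := by
  unfold Tq
  refine Measurable.ite (measurableSet_le measurable_const measurable_id) ?_ ?_
  · exact ((measurable_id.div_const a).add_const _).floor
  · exact (((measurable_id.neg).div_const a).add_const _).floor.neg

theorem meas_geo (σ : ℝ) (j : ℕ) : Measurable (fun ω : ℕ → ℝ => geo σ ω j) := by
  unfold geo
  exact (meas_Tq _).comp (measurable_pi_apply j)

theorem law_geo (h1 : S_Tqlaw) (σ : ℝ) (j : ℕ) (hσ : 0 < σ * j) (k : ℤ) :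
    PP.real {ω | geo σ ω j = k} =
      (1 - Real.exp (-(σ * j))) / (1 + Real.exp (-(σ * j))) * Real.exp (-(σ * j * |k|)) := by
  rw [← h1 (σ * j) k hσ]
  have hmp : MeasurePreserving (Function.eval j) PP lap := by
    unfold PP
    exact measurePreserving_eval_infinitePi (fun _ : ℕ => lap) j
  have hms : MeasurableSet {x : ℝ | Tq (σ * j) x = k} := meas_Tq _ (measurableSet_singleton k)
  have h3 := hmp.measureReal_preimage hms.nullMeasurableSet
  rw [← h3]
  rfl

/-- The flippable-pair event with a fixed orientation. -/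
def Fe (D : ℕ) (σ : ℝ) (i : ℕ) : Set (ℕ → ℝ) := {ω | geo σ ω i = 1 ∧ geo σ ω (i + D) = -1}

theorem meas_Fe (D : ℕ) (σ : ℝ) (i : ℕ) : MeasurableSet (Fe D σ i) :=
  (meas_geo σ i (measurableSet_singleton 1)).inter (meas_geo σ (i + D) (measurableSet_singleton (-1)))

theorem dep_Fe (D : ℕ) (σ : ℝ) (i : ℕ) : DepOn {i, i + D} (Fe D σ i) := by
  intro ω ω' h hω
  have h1 : ω i = ω' i := h i (by simp)
  have h2 : ω (i + D) = ω' (i + D) := h (i + D) (by simp)
  obtain ⟨h3, h4⟩ := hω
  refine ⟨?_, ?_⟩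
  · unfold geo at h3 ⊢
    rw [← h1]; exact h3
  · unfold geo at h4 ⊢
    rw [← h2]; exact h4

theorem prob_Fe_lower (h1 : S_Tqlaw) (h3 : S_indep) (D : ℕ) (σ s1 s2 : ℝ) (i : ℕ) (hs1 : 0 < s1) (hD : 0 < D)
    (ha1 : s1 ≤ σ * i) (ha2 : σ * i ≤ s2) (hb1 : s1 ≤ σ * (i + D : ℕ)) (hb2 : σ * (i + D : ℕ) ≤ s2) :
    ((1 - Real.exp (-s1)) / 2 * Real.exp (-s2)) ^ 2 ≤ PP.real (Fe D σ i) := by
  have hset : Fe D σ i = {ω | geo σ ω i = 1} ∩ {ω | geo σ ω (i + D) = -1} := rfl
  have hind : PP.real (Fe D σ i) = PP.real {ω | geo σ ω i = 1} * PP.real {ω | geo σ ω (i + D) = -1} := by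
    rw [hset]
    refine h3 {i} {i + D} _ _ ?_ (meas_geo σ i (measurableSet_singleton 1))
      (meas_geo σ (i + D) (measurableSet_singleton (-1))) ?_ ?_
    · rw [Finset.disjoint_singleton]; omega
    · intro ω ω' h hω
      have h4 : ω i = ω' i := h i (by simp)
      have h5 : geo σ ω i = 1 := hω
      unfold geo at h5
      rw [h4] at h5
      exact h5
    · intro ω ω' h hω
      have h4 : ω (i + D) = ω' (i + D) := h (i + D) (by simp)
      have h5 : geo σ ω (i + D) = -1 := hω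
      unfold geo at h5
      rw [h4] at h5
      exact h5
  have key : ∀ a : ℝ, s1 ≤ a → a ≤ s2 → ∀ k : ℤ, |k| = 1 →
      (1 - Real.exp (-s1)) / 2 * Real.exp (-s2) ≤
        (1 - Real.exp (-a)) / (1 + Real.exp (-a)) * Real.exp (-(a * |k|)) := by
    intro a ha ha' k hk
    have hk' : ((|k| : ℤ) : ℝ) = 1 := by exact_mod_cast hk
    have e1 : Real.exp (-a) ≤ Real.exp (-s1) := Real.exp_le_exp.mpr (by linarith)
    have e2 : Real.exp (-s1) < 1 := by rw [Real.exp_lt_one_iff]; linarith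
    have e3 : Real.exp (-s2) ≤ Real.exp (-a) := Real.exp_le_exp.mpr (by linarith)
    have e4 : 0 < Real.exp (-a) := Real.exp_pos _
    rw [hk', mul_one]
    have e5 : (1 - Real.exp (-s1)) / 2 ≤ (1 - Real.exp (-a)) / (1 + Real.exp (-a)) := by
      rw [div_le_div_iff₀ (by norm_num) (by positivity)]
      nlinarith
    exact mul_le_mul e5 e3 (Real.exp_pos _).le (div_nonneg (by linarith) (by positivity))
  have e2 : Real.exp (-s1) < 1 := by rw [Real.exp_lt_one_iff]; linarith
  have hπ : 0 ≤ (1 - Real.exp (-s1)) / 2 * Real.exp (-s2) := by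
    have : 0 < Real.exp (-s2) := Real.exp_pos _
    exact mul_nonneg (by linarith) this.le
  rw [hind, law_geo h1 σ i (by linarith) 1, law_geo h1 σ (i + D) (by linarith) (-1), sq]
  exact mul_le_mul (key _ ha1 ha2 1 (by norm_num)) (key _ hb1 hb2 (-1) (by norm_num)) hπ
    (le_trans hπ (key _ ha1 ha2 1 (by norm_num)))

theorem gp_ipc (h1 : S_Tqlaw) (_h2 : S_L3) (h3 : S_indep) : S_IPc := by
  intro s1 s2 hs1 hs2
  set q : ℝ := ((1 - Real.exp (-(s1 / 3))) / 2 * Real.exp (-s2)) ^ 2 with hq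
  have hq0 : 0 < q := by
    have e2 : Real.exp (-(s1 / 3)) < 1 := by rw [Real.exp_lt_one_iff]; linarith
    have e3 : 0 < Real.exp (-s2) := Real.exp_pos _
    have e4 : 0 < (1 - Real.exp (-(s1 / 3))) / 2 := by linarith
    positivity
  refine ⟨q / 8, by positivity, ?_⟩
  intro δ hδ
  refine ⟨max 9 ⌈16 / (q * δ)⌉₊, ?_⟩
  intro d hd σ hσ hlo hhi
  have hd9 : 9 ≤ d := le_trans (le_max_left _ _) hd
  have hd16 : 16 / (q * δ) ≤ d := le_trans (Nat.le_ceil _) (by exact_mod_cast le_trans (le_max_right _ _) hd)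
  set D : ℕ := d / 3 with hD
  have hD1 : 3 ≤ D := by omega
  have hD3 : 3 * D ≤ d := by omega
  have hD4 : d < 3 * (D + 1) := by omega
  have hdD : (d : ℝ) ≤ 4 * D := by
    have : d ≤ 4 * D := by omega
    exact_mod_cast this
  have hcardI : (Finset.Ioc D (2 * D)).card = D := by
    rw [Nat.card_Ioc]; omega
  have hlow : ∀ i ∈ Finset.Ioc D (2 * D), q ≤ PP.real (Fe D σ i) := by
    intro i hi
    rw [Finset.mem_Ioc] at hi
    have hi1 : (d : ℝ) ≤ 3 * i := by
      have : d ≤ 3 * i := by omega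
      exact_mod_cast this
    have hi2 : ((i + D : ℕ) : ℝ) ≤ d := by
      have : i + D ≤ d := by omega
      exact_mod_cast this
    have hi3 : (i : ℝ) ≤ ((i + D : ℕ) : ℝ) := by
      have : i ≤ i + D := by omega
      exact_mod_cast this
    have a1 : s1 / 3 ≤ σ * i := by nlinarith
    have a2 : σ * i ≤ σ * ((i + D : ℕ) : ℝ) := mul_le_mul_of_nonneg_left hi3 hσ.le
    have a3 : σ * ((i + D : ℕ) : ℝ) ≤ s2 := le_trans (mul_le_mul_of_nonneg_left hi2 hσ.le) hhi
    exact prob_Fe_lower h1 h3 D σ (s1 / 3) s2 i (by linarith) (by omega) a1 (by linarith) (by linarith) a3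
  have hind : ∀ i ∈ Finset.Ioc D (2 * D), ∀ j ∈ Finset.Ioc D (2 * D), i ≠ j →
      PP.real (Fe D σ i ∩ Fe D σ j) = PP.real (Fe D σ i) * PP.real (Fe D σ j) := by
    intro i hi j hj hij
    rw [Finset.mem_Ioc] at hi hj
    refine h3 {i, i + D} {j, j + D} _ _ ?_ (meas_Fe D σ i) (meas_Fe D σ j) (dep_Fe D σ i) (dep_Fe D σ j)
    rw [Finset.disjoint_left]
    intro a ha ha'
    simp only [Finset.mem_insert, Finset.mem_singleton] at ha ha'
    omega
  have hmain := cheb_count PP (Finset.Ioc D (2 * D)) (Fe D σ) (fun i _ => meas_Fe D σ i) hind q hq0 hlow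
    (by rw [hcardI]; omega)
  rw [hcardI] at hmain
  have hDpos : (0 : ℝ) < D := by
    have : 0 < D := by omega
    exact_mod_cast this
  have hdpos : (0 : ℝ) < d := by
    have : 0 < d := by omega
    exact_mod_cast this
  have hsub : {ω | ((IP D σ ω).card : ℝ) < q / 8 * d} ⊆
      {ω | ∑ i ∈ Finset.Ioc D (2 * D), (Fe D σ i).indicator (fun _ => (1 : ℝ)) ω < q * D / 2} := by
    intro ω hω
    have hω1 : ((IP D σ ω).card : ℝ) < q / 8 * d := hω
    have hle : ∑ i ∈ Finset.Ioc D (2 * D), (Fe D σ i).indicator (fun _ => (1 : ℝ)) ω ≤ ((IP D σ ω).card : ℝ) := by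
      classical
      unfold IP
      rw [Finset.card_filter]
      push_cast
      refine Finset.sum_le_sum fun i _ => ?_
      by_cases hi : ω ∈ Fe D σ i
      · rw [Set.indicator_of_mem hi]
        have : prD D σ ω i := Or.inl hi
        simp [this]
      · rw [Set.indicator_of_notMem hi]
        split_ifs <;> norm_num
    have h8 : q / 8 * d ≤ q * D / 2 := by nlinarith
    exact lt_of_le_of_lt hle (lt_of_lt_of_le hω1 h8)
  refine le_trans (measureReal_mono hsub) (le_trans hmain ?_)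
  rw [div_le_iff₀ (by positivity)]
  rw [div_le_iff₀ (by positivity)] at hd16
  nlinarith [mul_pos hq0 hδ]

end Pool.Agent.H928.GP174
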